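import Pool.Agent.Y476.RM.Stm3

/-!
# Small translations in `A - A` do not move the law of the second coordinate much
-/

set_option autoImplicit false
open MeasureTheory Filter Topology
open scoped ENNReal

namespace Pool.Agent.Y31.HM

open Pool.Agent.Y476.RM

/-- Comparison of the integrals against two measures with densities. -/
theorem int_wd_sub {G : Type} [TopologicalSpace G] [MeasurableSpace G] [BorelSpace G]
    (ν : Measure G) [IsFiniteMeasure ν] (u v : G → ℝ≥0∞) (hu : Measurable u) (hv : Measurable v)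
    (hu' : ∫⁻ y, u y ∂ν ≠ ∞) (hv' : ∫⁻ y, v y ∂ν ≠ ∞) (φ : C(G, ℝ)) (hφ : ∀ x, |φ x| ≤ 1) :
    |∫ x, φ x ∂(ν.withDensity u) - ∫ x, φ x ∂(ν.withDensity v)| ≤
      ∫ y, |(u y).toReal - (v y).toReal| ∂ν := by
  have hu1 : ∀ᵐ x ∂ν, u x < ∞ := ae_lt_top hu hu'
  have hv1 : ∀ᵐ x ∂ν, v x < ∞ := ae_lt_top hv hv'
  rw [integral_withDensity_eq_integral_toReal_smul hu hu1,
    integral_withDensity_eq_integral_toReal_smul hv hv1]
  have iu : Integrable (fun x => (u x).toReal) ν := integrable_toReal_of_lintegral_ne_top hu.aemeasurable hu'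
  have iv : Integrable (fun x => (v x).toReal) ν := integrable_toReal_of_lintegral_ne_top hv.aemeasurable hv'
  have iu2 : Integrable (fun x => (u x).toReal • φ x) ν := by
    refine iu.mono (iu.aestronglyMeasurable.smul φ.continuous.aestronglyMeasurable) ?_
    refine Eventually.of_forall fun x => ?_
    rw [norm_smul]
    calc ‖(u x).toReal‖ * ‖φ x‖ ≤ ‖(u x).toReal‖ * 1 := by
          exact mul_le_mul_of_nonneg_left (hφ x) (norm_nonneg _)
      _ = _ := mul_one _
  have iv2 : Integrable (fun x => (v x).toReal • φ x) ν := by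
    refine iv.mono (iv.aestronglyMeasurable.smul φ.continuous.aestronglyMeasurable) ?_
    refine Eventually.of_forall fun x => ?_
    rw [norm_smul]
    calc ‖(v x).toReal‖ * ‖φ x‖ ≤ ‖(v x).toReal‖ * 1 := by
          exact mul_le_mul_of_nonneg_left (hφ x) (norm_nonneg _)
      _ = _ := mul_one _
  rw [← integral_sub iu2 iv2]
  refine abs_integral_le_integral_abs.trans ?_
  refine integral_mono (iu2.sub iv2).abs (iu.sub iv).abs ?_
  intro x
  show ‖(u x).toReal • φ x - (v x).toReal • φ x‖ ≤ |(u x).toReal - (v x).toReal|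
  rw [← sub_smul, norm_smul]
  calc ‖(u x).toReal - (v x).toReal‖ * ‖φ x‖ ≤ ‖(u x).toReal - (v x).toReal‖ * 1 := by
        exact mul_le_mul_of_nonneg_left (hφ x) (norm_nonneg _)
    _ = _ := mul_one _

/-- Composition of a continuous map with an affine reflection. -/
def refl (x : TT) (φ : C(TT, ℝ)) : C(TT, ℝ) := ⟨fun y => φ (x - y), by fun_prop⟩

theorem refl_apply (x : TT) (φ : C(TT, ℝ)) (y : TT) : refl x φ y = φ (x - y) := rfl

/-- Integral against the reflected measure. -/
theorem int_refl (x : TT) (θ : Measure TT) (φ : C(TT, ℝ)) :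
    ∫ z, φ z ∂(θ.map (fun y => x - y)) = ∫ y, φ (x - y) ∂θ := by
  rw [integral_map (by fun_prop) φ.continuous.aestronglyMeasurable]

/-- A translation along a difference of two points in `A` moves the conditional law by a small
amount. -/
theorem td_cond (ν2 ν3 : Measure TT) [IsFiniteMeasure ν2] [IsFiniteMeasure ν3]
    (u u' v v' : TT → ℝ≥0∞) (hu : Measurable u) (hu' : Measurable u') (hv : Measurable v)
    (hv' : Measurable v') (iu : ∫⁻ y, u y ∂ν2 ≠ ∞) (iu' : ∫⁻ y, u' y ∂ν2 ≠ ∞)
    (x x' : TT) (r : (ν2.withDensity u).map (fun y => -x - y) = ν3.withDensity v)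
    (r' : (ν2.withDensity u').map (fun y => -x' - y) = ν3.withDensity v') :
    TD (ν2.withDensity u) (x - x') (∫ y, |(u y).toReal - (u' y).toReal| ∂ν2 +
      ∫ y, |(v y).toReal - (v' y).toReal| ∂ν3) := by
  have iv : ∫⁻ y, v y ∂ν3 ≠ ∞ := by
    have : (ν3.withDensity v) Set.univ ≠ ∞ := by
      rw [← r, Measure.map_apply (by fun_prop) MeasurableSet.univ, Set.preimage_univ,
        withDensity_apply _ MeasurableSet.univ, Measure.restrict_univ]
      exact iu
    rwa [withDensity_apply _ MeasurableSet.univ, Measure.restrict_univ] at this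
  have iv' : ∫⁻ y, v' y ∂ν3 ≠ ∞ := by
    have : (ν3.withDensity v') Set.univ ≠ ∞ := by
      rw [← r', Measure.map_apply (by fun_prop) MeasurableSet.univ, Set.preimage_univ,
        withDensity_apply _ MeasurableSet.univ, Measure.restrict_univ]
      exact iu'
    rwa [withDensity_apply _ MeasurableSet.univ, Measure.restrict_univ] at this
  intro φ hφ
  have h1 := int_refl (-x) (ν2.withDensity u) (refl (-x') φ)
  have h2 := int_refl (-x') (ν2.withDensity u') (refl (-x') φ)
  rw [r] at h1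
  rw [r'] at h2
  simp only [refl_apply] at h1 h2
  have e1 : ∀ y : TT, -x' - (-x - y) = y + (x - x') := fun y => by abel
  have e2 : ∀ y : TT, -x' - (-x' - y) = y := fun y => by abel
  simp only [e1] at h1
  simp only [e2] at h2
  have h3 := int_wd_sub ν3 v v' hv hv' iv iv' (refl (-x') φ) (fun z => hφ _)
  simp only [refl_apply] at h3
  rw [h1, h2] at h3
  have h4 := int_wd_sub ν2 u u' hu hu' iu iu' φ hφ
  calc |∫ y, φ (y + (x - x')) ∂(ν2.withDensity u) - ∫ y, φ y ∂(ν2.withDensity u)|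
      = |(∫ y, φ (y + (x - x')) ∂(ν2.withDensity u) - ∫ y, φ y ∂(ν2.withDensity u'))
        - (∫ y, φ y ∂(ν2.withDensity u) - ∫ y, φ y ∂(ν2.withDensity u'))| := by ring_nf
    _ ≤ |∫ y, φ (y + (x - x')) ∂(ν2.withDensity u) - ∫ y, φ y ∂(ν2.withDensity u')|
        + |∫ y, φ y ∂(ν2.withDensity u) - ∫ y, φ y ∂(ν2.withDensity u')| := abs_sub _ _
    _ ≤ _ := by linarith

/-- Perturbation of the density. -/
theorem td_pert (ν2 : Measure TT) [IsFiniteMeasure ν2]
    (u u' : TT → ℝ≥0∞) (hu : Measurable u) (hu' : Measurable u') (iu : ∫⁻ y, u y ∂ν2 ≠ ∞)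
    (iu' : ∫⁻ y, u' y ∂ν2 ≠ ∞) (s : TT) (e : ℝ) (h : TD (ν2.withDensity u) s e) :
    TD (ν2.withDensity u') s (e + 2 * ∫ y, |(u y).toReal - (u' y).toReal| ∂ν2) := by
  intro φ hφ
  have h1 := h φ hφ
  have h2 := int_wd_sub ν2 u u' hu hu' iu iu' φ hφ
  have h3 := int_wd_sub ν2 u u' hu hu' iu iu' ⟨fun y => φ (y + s), by fun_prop⟩ (fun z => hφ _)
  simp only [ContinuousMap.coe_mk] at h3
  rw [abs_le] at h1 h2 h3 ⊢
  constructor <;> linarith [h1.1, h1.2, h2.1, h2.2, h3.1, h3.2]

/-- Rigidity of the reflected measure. -/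
theorem rig_refl {ι : Type} (l : Filter ι) (s : ι → TT) (θ : Measure TT) (x : TT)
    (h : Rig l s θ) : Rig l s (θ.map (fun y => x - y)) := by
  intro ε hε
  filter_upwards [h ε hε] with i hi φ hφ
  have h1 := int_refl x θ φ
  have h2 := int_refl x θ ⟨fun y => φ (y + s i), by fun_prop⟩
  simp only [ContinuousMap.coe_mk] at h2
  rw [h1, h2]
  have h3 := hi ⟨fun y => φ (x - y + s i), by fun_prop⟩ (fun z => hφ _)
  simp only [ContinuousMap.coe_mk] at h3
  have e1 : ∀ y : TT, x - (y + s i) + s i = x - y := fun y => by abel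
  simp only [e1] at h3
  rw [abs_sub_comm]
  exact h3

/-- Disintegration formula for a measure with a density with respect to a product. -/
theorem wd_prod_apply (μ1 μ2 : Measure TT) [IsFiniteMeasure μ1] [IsFiniteMeasure μ2]
    (f : TT → TT → ℝ≥0∞) (hf : Measurable (Function.uncurry f)) (E : Set (TT × TT))
    (hE : MeasurableSet E) :
    ((μ1.prod μ2).withDensity (Function.uncurry f)) E =
      ∫⁻ x, (μ2.withDensity (f x)) (Prod.mk x ⁻¹' E) ∂μ1 := by
  rw [withDensity_apply _ hE, ← lintegral_indicator hE,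
    lintegral_prod _ ((hf.indicator hE).aemeasurable)]
  refine lintegral_congr fun x => ?_
  rw [withDensity_apply _ (measurable_prodMk_left hE),
    ← lintegral_indicator (measurable_prodMk_left hE)]
  refine lintegral_congr fun y => ?_
  by_cases hy : (x, y) ∈ E
  · rw [Set.indicator_of_mem hy, Set.indicator_of_mem (show y ∈ Prod.mk x ⁻¹' E from hy)]
    rfl
  · rw [Set.indicator_of_notMem hy, Set.indicator_of_notMem (show y ∉ Prod.mk x ⁻¹' E from hy)]

/-- The rigid part in the second coordinate is sent into the rigid part of the third. -/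
theorem null_of_rig (hR : S_R1) (Q : Measure (TT × TT)) [IsFiniteMeasure Q]
    (μ1 μ2 μ3 : Measure TT) [IsFiniteMeasure μ1] [IsFiniteMeasure μ2]
    (f : TT → TT → ℝ≥0∞) (hf : Measurable (Function.uncurry f))
    (hQ : Q = (μ1.prod μ2).withDensity (Function.uncurry f))
    (hrel : ∀ᵐ x ∂μ1, (μ2.withDensity (f x)).map (fun y => -x - y) ≪ μ3)
    (t : ℕ → TT) (ht : Tendsto t atTop (𝓝 0)) (R C : Set TT) (hRm : MeasurableSet R)
    (hCm : MeasurableSet C)
    (hRr : Rig atTop t (μ2.restrict R))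
    (hC : ∀ θ : Measure TT, IsFiniteMeasure θ → θ ≪ μ3 → Rig atTop t θ → θ Cᶜ = 0) :
    Q {p | p.2 ∈ R ∧ -p.1 - p.2 ∈ Cᶜ} = 0 := by
  have hEm : MeasurableSet {p : TT × TT | p.2 ∈ R ∧ -p.1 - p.2 ∈ Cᶜ} := by
    refine (measurable_snd hRm).inter ?_
    have : Measurable (fun p : TT × TT => -p.1 - p.2) := by fun_prop
    exact this hCm.compl
  rw [hQ, wd_prod_apply μ1 μ2 f hf _ hEm]
  have hfin : ∀ᵐ x ∂μ1, (μ2.withDensity (f x)) Set.univ < ∞ := by
    have h1 : ∫⁻ x, (μ2.withDensity (f x)) Set.univ ∂μ1 ≠ ∞ := by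
      have h2 := wd_prod_apply μ1 μ2 f hf Set.univ MeasurableSet.univ
      rw [← hQ] at h2
      simp only [Set.preimage_univ] at h2
      rw [← h2]
      exact measure_ne_top Q _
    refine ae_lt_top ?_ h1
    have : (fun x => (μ2.withDensity (f x)) Set.univ) = fun x => ∫⁻ y, f x y ∂μ2 := by
      funext x
      rw [withDensity_apply _ MeasurableSet.univ, Measure.restrict_univ]
    rw [this]
    exact hf.lintegral_prod_right'
  have key : ∀ᵐ x ∂μ1,
      (μ2.withDensity (f x)) (Prod.mk x ⁻¹' {p : TT × TT | p.2 ∈ R ∧ -p.1 - p.2 ∈ Cᶜ}) = 0 := by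
    filter_upwards [hfin, hrel] with x hx1 hx2
    have hF : IsFiniteMeasure (μ2.withDensity (f x)) := ⟨hx1⟩
    have h1 : Rig atTop t ((μ2.withDensity (f x)).restrict R) := by
      refine hR TT ℕ atTop t (μ2.restrict R) _ hRr ht ?_
      exact (withDensity_absolutelyContinuous _ _).restrict _
    have h2 := rig_refl atTop t _ (-x) h1
    have h3 : ((μ2.withDensity (f x)).restrict R).map (fun y => -x - y) ≪ μ3 := by
      refine Measure.AbsolutelyContinuous.trans ?_ hx2
      exact (Measure.absolutelyContinuous_of_le Measure.restrict_le_self).map (by fun_prop)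
    have h4 := hC _ inferInstance h3 h2
    rw [Measure.map_apply (by fun_prop) hCm.compl, Measure.restrict_apply] at h4
    · show (μ2.withDensity (f x)) _ = 0
      refine measure_mono_null ?_ h4
      intro y hy
      exact ⟨hy.2, hy.1⟩
    · have : Measurable (fun y : TT => -x - y) := by fun_prop
      exact this hCm.compl
  rw [lintegral_congr_ae key, lintegral_zero]

/-- Limit of a sequence of densities which converges in mean. -/
theorem exists_limit (ν2 : Measure TT) [IsFiniteMeasure ν2] (u : ℕ → TT → ℝ≥0∞)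
    (hu : ∀ n, Measurable (u n)) (iu : ∀ n, ∫⁻ y, u n y ∂ν2 ≠ ∞)
    (hc : ∀ ε : ℝ, 0 < ε → ∃ N : ℕ, ∀ m, N ≤ m → ∀ n, N ≤ n →
      ∫ y, |(u m y).toReal - (u n y).toReal| ∂ν2 ≤ ε) :
    ∃ v : TT → ℝ≥0∞, Measurable v ∧ ∫⁻ y, v y ∂ν2 ≠ ∞ ∧
      Tendsto (fun n => ∫ y, |(u n y).toReal - (v y).toReal| ∂ν2) atTop (𝓝 0) := by
  have ii : ∀ n, Integrable (fun x => (u n x).toReal) ν2 := fun n =>
    integrable_toReal_of_lintegral_ne_top (hu n).aemeasurable (iu n)
  let U : ℕ → (TT →₁[ν2] ℝ) := fun n => (ii n).toL1 _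
  have hU : CauchySeq U := by
    rw [Metric.cauchySeq_iff]
    intro ε hε
    obtain ⟨N, hN⟩ := hc (ε / 2) (half_pos hε)
    refine ⟨N, fun m hm n hn => ?_⟩
    have h1 : dist (U m) (U n) = ∫ y, |(u m y).toReal - (u n y).toReal| ∂ν2 := by
      rw [dist_eq_norm]
      exact L1.norm_of_fun_eq_integral_norm ((ii m).sub (ii n))
    rw [h1]
    linarith [hN m hm n hn]
  obtain ⟨L, hL⟩ := cauchySeq_tendsto_of_complete hU
  have iL : Integrable (fun y => L y) ν2 := L1.integrable_coeFn L
  have mL : Measurable (fun y => L y) := (Lp.stronglyMeasurable L).measurable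
  have h2 : ∀ n, ‖U n - L‖ = ∫ y, |(u n y).toReal - L y| ∂ν2 := by
    intro n
    have h3 := L1.norm_of_fun_eq_integral_norm ((ii n).sub iL)
    rw [Integrable.toL1_sub _ _ (ii n) iL, Integrable.toL1_coeFn] at h3
    exact h3
  have h4 : Tendsto (fun n => ∫ y, |(u n y).toReal - L y| ∂ν2) atTop (𝓝 0) := by
    have h5 := tendsto_iff_norm_sub_tendsto_zero.1 hL
    simpa only [h2] using h5
  refine ⟨fun y => ENNReal.ofReal (L y), mL.ennreal_ofReal, ?_, ?_⟩
  · exact (Integrable.lintegral_lt_top iL).ne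
  · refine squeeze_zero (fun n => integral_nonneg fun y => abs_nonneg _) (fun n => ?_) h4
    have iM : Integrable (fun y => (ENNReal.ofReal (L y)).toReal) ν2 := by
      refine integrable_toReal_of_lintegral_ne_top mL.ennreal_ofReal.aemeasurable ?_
      exact (Integrable.lintegral_lt_top iL).ne
    refine integral_mono ((ii n).sub iM).abs ((ii n).sub iL).abs fun y => ?_
    show |(u n y).toReal - (ENNReal.ofReal (L y)).toReal| ≤ |(u n y).toReal - L y|
    rw [ENNReal.toReal_ofReal']
    have h6 : 0 ≤ (u n y).toReal := ENNReal.toReal_nonneg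
    rcases le_total 0 (L y) with h7 | h7
    · rw [max_eq_left h7]
    · rw [max_eq_right h7, sub_zero, abs_of_nonneg h6, abs_of_nonneg (by linarith)]
      linarith

/-- The statement on small translations. -/
theorem t (hR : S_R1) (hM : S_MAX) : S_BETA := by
  intro P _ f h hf hh hP hP' hrel hirr A c hc hA hcA hLf hLh ε hε
  by_contra hcon
  push Not at hcon
  have hfx : ∀ x, Measurable (f x) := fun x => hf.comp measurable_prodMk_left
  have hhx : ∀ x, Measurable (h x) := fun x => hh.comp measurable_prodMk_left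
  have h1 : ∀ n : ℕ, ∃ x ∈ A, ∃ x' ∈ A, ‖x - x'‖ < 1 / ((n : ℝ) + 1) ∧
      ¬ TD (P.map Prod.snd) (x - x') ε := fun n => hcon _ (by positivity)
  choose x hxA x' hxA' hd hnot using h1
  obtain ⟨a, -, φ, hφ, hxa⟩ := isCompact_univ.tendsto_subseq (fun n => Set.mem_univ (x n))
  set t : ℕ → TT := fun n => x (φ n) - x' (φ n) with ht_def
  have hd0 : Tendsto (fun n => ‖x n - x' n‖) atTop (𝓝 0) :=
    squeeze_zero (fun n => norm_nonneg _) (fun n => (hd n).le) tendsto_one_div_add_atTop_nhds_zero_nat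
  have htn : Tendsto (fun n => ‖t n‖) atTop (𝓝 0) := hd0.comp hφ.tendsto_atTop
  have ht : Tendsto t atTop (𝓝 0) := tendsto_zero_iff_norm_tendsto_zero.2 htn
  -- the densities
  set ν2 := P.map Prod.snd with hν2
  set ν3 := P.map zz with hν3
  obtain ⟨v, hv, iv, hlim⟩ := exists_limit ν2 (fun n => f (x (φ n))) (fun n => hfx _)
    (fun n => (hcA _ (hxA _)).2) (by
      intro e he
      obtain ⟨η, hη, hη'⟩ := hLf e he
      have hcs : CauchySeq (x ∘ φ) := hxa.cauchySeq
      rw [Metric.cauchySeq_iff] at hcs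
      obtain ⟨N, hN⟩ := hcs η hη
      exact ⟨N, fun m hm n hn => hη' _ (hxA _) _ (hxA _) (hN m hm n hn)⟩)
  have hsmall : ∀ e : ℝ, 0 < e → ∀ᶠ n in atTop, TD (ν2.withDensity (f (x (φ n)))) (t n) e := by
    intro e he
    obtain ⟨η, hη, hη'⟩ := hLf (e / 2) (half_pos he)
    obtain ⟨η2, hη2, hη2'⟩ := hLh (e / 2) (half_pos he)
    have h2 : ∀ᶠ n in atTop, ‖t n‖ < min η η2 := htn.eventually_lt_const (lt_min hη hη2)
    filter_upwards [h2] with n hn
    have h3 := td_cond ν2 ν3 (f (x (φ n))) (f (x' (φ n))) (h (x (φ n))) (h (x' (φ n)))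
      (hfx _) (hfx _) (hhx _) (hhx _) (hcA _ (hxA _)).2 (hcA _ (hxA' _)).2 (x (φ n)) (x' (φ n))
      (hA _ (hxA _)) (hA _ (hxA' _))
    have h4 := hη' _ (hxA (φ n)) _ (hxA' (φ n)) (by
      rw [dist_eq_norm]; exact lt_of_lt_of_le hn (min_le_left _ _))
    have h5 := hη2' _ (hxA (φ n)) _ (hxA' (φ n)) (by
      rw [dist_eq_norm]; exact lt_of_lt_of_le hn (min_le_right _ _))
    intro ψ hψ
    exact (h3 ψ hψ).trans (by linarith)
  have hrig : Rig atTop t (ν2.withDensity v) := by
    intro e he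
    have h2 : ∀ᶠ n in atTop, ∫ y, |(f (x (φ n)) y).toReal - (v y).toReal| ∂ν2 < e / 4 :=
      hlim.eventually_lt_const (by positivity)
    filter_upwards [hsmall (e / 2) (half_pos he), h2] with n h3 h4
    have h5 := td_pert ν2 _ v (hfx _) hv (hcA _ (hxA (φ n))).2 iv (t n) (e / 2) h3
    intro ψ hψ
    exact (h5 ψ hψ).trans (by linarith)
  have hvfin : IsFiniteMeasure (ν2.withDensity v) := isFiniteMeasure_withDensity iv
  obtain ⟨R, hRm, hRr, hRmax⟩ := hM TT ℕ atTop t ht ν2
  obtain ⟨C, hCm, hCr, hCmax⟩ := hM TT ℕ atTop t ht ν3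
  have hn1 : P {p | p.2 ∈ R ∧ -p.1 - p.2 ∈ Cᶜ} = 0 := by
    refine null_of_rig hR P (P.map Prod.fst) ν2 ν3 f hf hP ?_ t ht R C hRm hCm hRr hCmax
    filter_upwards [hrel] with y hy
    rw [hy]
    exact withDensity_absolutelyContinuous _ _
  have hzm : Measurable zz := by
    unfold zz; fun_prop
  have hn2 : (P.map (fun p => (p.1, zz p))) {p | p.2 ∈ C ∧ -p.1 - p.2 ∈ Rᶜ} = 0 := by
    refine null_of_rig hR _ (P.map Prod.fst) ν3 ν2 h hh hP' ?_ t ht C R hCm hRm hCr hRmax
    filter_upwards [hrel] with y hy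
    rw [← hy, Measure.map_map (by fun_prop) (by fun_prop)]
    have h2 : ((fun z : TT => -y - z) ∘ fun z : TT => -y - z) = id := by
      funext z
      simp
    rw [h2, Measure.map_id]
    exact withDensity_absolutelyContinuous _ _
  have hiff : ∀ᵐ p ∂P, p.2 ∈ R ↔ zz p ∈ C := by
    rw [Measure.map_apply (by fun_prop)] at hn2
    · rw [ae_iff]
      refine measure_mono_null ?_ (measure_union_null hn1 hn2)
      intro p hp
      simp only [Set.mem_ofPred_eq] at hp
      by_cases h3 : p.2 ∈ R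
      · left
        refine ⟨h3, fun h4 => hp ⟨fun _ => h4, fun _ => h3⟩⟩
      · right
        have h4 : zz p ∈ C := by
          by_contra h5
          exact hp ⟨fun h6 => absurd h6 h3, fun h6 => absurd h6 h5⟩
        refine ⟨h4, ?_⟩
        show -p.1 - zz p ∈ Rᶜ
        have h5 : -p.1 - zz p = p.2 := by
          unfold zz; abel
        rw [h5]
        exact h3
    · refine (measurable_snd hCm).inter ?_
      have : Measurable (fun p : TT × TT => -p.1 - p.2) := by fun_prop
      exact this hRm.compl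
  have hθ : (ν2.withDensity v) Rᶜ = 0 :=
    hRmax _ hvfin (withDensity_absolutelyContinuous _ _) hrig
  rcases hirr R C hRm hCm hiff with h2 | h2
  · -- the limit law vanishes
    have h3 : ν2 R = 0 := by rw [hν2, Measure.map_apply measurable_snd hRm]; exact h2
    have h4 : (ν2.withDensity v) R = 0 := withDensity_absolutelyContinuous _ _ h3
    have h5 : (ν2.withDensity v) Set.univ = 0 := by
      rw [← Set.union_compl_self R]
      exact measure_union_null h4 hθ
    rw [withDensity_apply _ MeasurableSet.univ, Measure.restrict_univ] at h5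
    have h6 : v =ᵐ[ν2] 0 := (lintegral_eq_zero_iff hv).1 h5
    have hc1 : c ≠ ∞ := fun h7 => (hcA _ (hxA 0)).2 (top_le_iff.1 (h7 ▸ (hcA _ (hxA 0)).1))
    have hc2 : 0 < c.toReal := ENNReal.toReal_pos hc.ne' hc1
    have h7 : ∀ n, c.toReal ≤ ∫ y, |(f (x (φ n)) y).toReal - (v y).toReal| ∂ν2 := by
      intro n
      have h8 : ∫ y, |(f (x (φ n)) y).toReal - (v y).toReal| ∂ν2 =
          ∫ y, (f (x (φ n)) y).toReal ∂ν2 := by
        refine integral_congr_ae ?_
        filter_upwards [h6] with y hy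
        rw [hy]
        simp
      rw [h8, integral_toReal (hfx _).aemeasurable (ae_lt_top (hfx _) (hcA _ (hxA _)).2)]
      exact ENNReal.toReal_mono (hcA _ (hxA _)).2 (hcA _ (hxA _)).1
    have h8 := ge_of_tendsto' hlim h7
    linarith
  · have h3 : ν2 Rᶜ = 0 := by rw [hν2, Measure.map_apply measurable_snd hRm.compl]; exact h2
    have h4 : ν2.restrict R = ν2 := by
      rw [Measure.restrict_eq_self_of_ae_mem]
      exact h3
    rw [h4] at hRr
    obtain ⟨n, hn⟩ := (hRr ε hε).exists
    exact hnot (φ n) hn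

end Pool.Agent.Y31.HM
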